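import Mathlib
import Pool.Agent.R110.BalDefs

/-!
# A normalised, row and column balanced Butson matrix which is not generalised Hadamard

There is a Butson matrix `BH(4, 16)` in normal form all of whose rows and columns, except the first
ones, contain every fourth root of unity exactly four times, and which is not a generalised Hadamard
matrix `GH(4, 4)`: the quotients of its rows number 3 and 2 are `1` for six of the sixteen columns.
-/

namespace Pool.Agent.Results.MP_56f6b7_co.BalancedNotGH

open Pool.Agent.R110

/-- `H` is a Butson Hadamard matrix `BH(w, v)`: all entries are complex `w`-th roots of unity and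
`H H* = v I`. -/
def IsButson (w v : ℕ) (H : Matrix (Fin v) (Fin v) ℂ) : Prop :=
  (∀ i j, H i j ^ w = 1) ∧ H * H.conjTranspose = (v : ℂ) • (1 : Matrix (Fin v) (Fin v) ℂ)

/-- Every entry of the first row and of the first column equals `1`. -/
def Normalised (v : ℕ) (H : Matrix (Fin v) (Fin v) ℂ) : Prop :=
  ∀ i j : Fin v, ((i : ℕ) = 0 ∨ (j : ℕ) = 0) → H i j = 1

/-- Every row other than the first contains every `w`-th root of unity exactly `v / w` times. -/
def RowBalanced (w v : ℕ) (H : Matrix (Fin v) (Fin v) ℂ) : Prop :=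
  ∀ i : Fin v, (i : ℕ) ≠ 0 → ∀ z : ℂ, z ^ w = 1 → Nat.card {j : Fin v // H i j = z} = v / w

/-- Every column other than the first contains every `w`-th root of unity exactly `v / w` times. -/
def ColBalanced (w v : ℕ) (H : Matrix (Fin v) (Fin v) ℂ) : Prop :=
  ∀ j : Fin v, (j : ℕ) ≠ 0 → ∀ z : ℂ, z ^ w = 1 → Nat.card {i : Fin v // H i j = z} = v / w

/-- `H` is a generalised Hadamard matrix `GH(w, v / w)` over the group of `w`-th roots of unity: all
entries are `w`-th roots of unity and for any two distinct rows `i`, `k` every `w`-th root of unity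
is the quotient `H i j / H k j` for exactly `v / w` columns `j`. -/
def IsGH (w v : ℕ) (H : Matrix (Fin v) (Fin v) ℂ) : Prop :=
  (∀ i j, H i j ^ w = 1) ∧ ∀ i k : Fin v, i ≠ k → ∀ z : ℂ, z ^ w = 1 →
    Nat.card {j : Fin v // H i j * (H k j)⁻¹ = z} = v / w

theorem card_eq {p : Fin 16 → Prop} {q : Fin 16 → Prop} [DecidablePred q] (h : ∀ j, p j ↔ q j) :
    Nat.card {j // p j} = (Finset.univ.filter q).card := by
  have : p = q := by
    funext j
    exact propext (h j)
  subst this
  rw [Nat.card_eq_fintype_card, Fintype.card_subtype]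

/-- A `BH(4, 16)` which is normalised, row balanced and column balanced, but not a `GH(4, 4)`. -/
theorem result : ∃ H : Matrix (Fin 16) (Fin 16) ℂ,
    IsButson 4 16 H ∧ Normalised 16 H ∧ RowBalanced 4 16 H ∧ ColBalanced 4 16 H ∧
      ¬ IsGH 4 16 H := by
  refine ⟨M, ⟨M_root, ?_⟩, ?_, ?_, ?_, ?_⟩
  · simpa using M_gram
  · rintro i j (h | h)
    · have : i = 0 := Fin.ext h
      subst this
      show Complex.I ^ E 0 j = 1
      rw [(E_zero j).1, pow_zero]
    · have : j = 0 := Fin.ext h
      subst this
      show Complex.I ^ E i 0 = 1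
      rw [(E_zero i).2, pow_zero]
  · intro i hi z hz
    obtain ⟨a, ha, rfl⟩ := exists_pow hz
    have hi' : i ≠ 0 := fun h => hi (by rw [h]; rfl)
    have := row_count i hi' ⟨a, ha⟩
    rw [card_eq (q := fun j => E i j = a)]
    · exact this
    · intro j
      exact ⟨fun h => I_pow_inj (E_lt i j) ha h, fun h => by show Complex.I ^ E i j = _; rw [h]⟩
  · intro j hj z hz
    obtain ⟨a, ha, rfl⟩ := exists_pow hz
    have hj' : j ≠ 0 := fun h => hj (by rw [h]; rfl)
    have := col_count j hj' ⟨a, ha⟩
    rw [card_eq (q := fun i => E i j = a)]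
    · exact this
    · intro i
      exact ⟨fun h => I_pow_inj (E_lt i j) ha h, fun h => by show Complex.I ^ E i j = _; rw [h]⟩
  · rintro ⟨-, h⟩
    have h1 := h 3 2 (by decide) 1 (one_pow _)
    rw [card_eq (q := fun j => E 3 j = E 2 j)] at h1
    · rw [quot_count] at h1
      norm_num at h1
    · intro j
      have h0 : M 2 j ≠ 0 := fun h0 => by
        have := M_root 2 j
        rw [h0] at this
        norm_num at this
      rw [← div_eq_mul_inv, div_eq_one_iff_eq h0]
      exact ⟨fun h => I_pow_inj (E_lt _ _) (E_lt _ _) h,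
        fun h => by show Complex.I ^ E 3 j = Complex.I ^ E 2 j; rw [h]⟩

end Pool.Agent.Results.MP_56f6b7_co.BalancedNotGH
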